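import Mathlib

set_option autoImplicit false

namespace Pool.Agent.Results.MP_a52033_al.CharTwo

variable {F A : Type*} [Field F] [AddCommGroup A] [Module F A]

/-- The algebra `(A, μ)` is right alternative: `(xy)y = x(yy)`. -/
def IsRightAlternative (μ : A →ₗ[F] A →ₗ[F] A) : Prop :=
  ∀ x y, μ (μ x y) y = μ x (μ y y)

/-- The algebra `(A, μ)` is alternative: `(xx)y = x(xy)` and `(xy)y = x(yy)`. -/
def IsAlternative (μ : A →ₗ[F] A →ₗ[F] A) : Prop :=
  (∀ x y, μ (μ x x) y = μ x (μ x y)) ∧ ∀ x y, μ (μ x y) y = μ x (μ y y)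

/-- The commutator `[x, y] = xy - yx`. -/
def comm (μ : A →ₗ[F] A →ₗ[F] A) (x y : A) : A := μ x y - μ y x

/-- The commutator algebra of `(A, μ)` is a Malcev algebra. -/
def IsMalcevAdmissible (μ : A →ₗ[F] A →ₗ[F] A) : Prop :=
  (∀ x, comm μ x x = 0) ∧ ∀ x y z, comm μ (comm μ x y) (comm μ x z) =
    comm μ (comm μ (comm μ x y) z) x + comm μ (comm μ (comm μ y z) x) x +
      comm μ (comm μ (comm μ z x) x) y

/-- The commutator algebra of `(A, μ)` is even a Lie algebra. -/
def IsLieAdmissible (μ : A →ₗ[F] A →ₗ[F] A) : Prop :=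
  (∀ x, comm μ x x = 0) ∧ ∀ x y z,
    comm μ (comm μ x y) z + comm μ (comm μ y z) x + comm μ (comm μ z x) y = 0

/-- The algebra `(A, μ)` is simple: the product is not zero and `0` and `A` are its only two-sided
ideals (even among additive subgroups). -/
def IsSimpleAlg (μ : A →ₗ[F] A →ₗ[F] A) : Prop :=
  (∃ x y, μ x y ≠ 0) ∧
    ∀ I : AddSubgroup A, (∀ x ∈ I, ∀ y, μ x y ∈ I ∧ μ y x ∈ I) → I = ⊥ ∨ I = ⊤

/-- the product -/
def mulF (F : Type*) [Field F] (x y : Fin 3 → F) : Fin 3 → F :=
  ![x 0 * y 1, x 0 * y 2 + x 1 * y 1 + x 2 * y 0, x 0 * y 0]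

/-- the product as a bilinear map -/
def M (F : Type*) [Field F] : (Fin 3 → F) →ₗ[F] (Fin 3 → F) →ₗ[F] (Fin 3 → F) :=
  LinearMap.mk₂ F (mulF F)
    (by intro x y z; ext i; fin_cases i <;> simp [mulF] <;> ring)
    (by intro c x y; ext i; fin_cases i <;> simp [mulF] <;> ring)
    (by intro x y z; ext i; fin_cases i <;> simp [mulF] <;> ring)
    (by intro c x y; ext i; fin_cases i <;> simp [mulF] <;> ring)

theorem M_apply {F : Type*} [Field F] (x y : Fin 3 → F) : M F x y =
    ![x 0 * y 1, x 0 * y 2 + x 1 * y 1 + x 2 * y 0, x 0 * y 0] := rfl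

theorem comm_apply {F : Type*} [Field F] (x y : Fin 3 → F) : comm (M F) x y =
    ![x 0 * y 1 - y 0 * x 1, 0, 0] := by
  unfold comm
  rw [M_apply, M_apply]
  ext i
  fin_cases i
  · simp
  · simp; ring
  · simp; ring

theorem simple (F : Type*) [Field F] : IsSimpleAlg (M F) := by
  constructor
  · refine ⟨![1, 0, 0], ![1, 0, 0], ?_⟩
    intro h
    have := congrFun h 2
    simp [M_apply] at this
  · intro I hI
    by_cases hbot : I = ⊥
    · exact Or.inl hbot
    right
    -- if I contains all multiples of e1 then it is everything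
    have key : (∀ t : F, (![0, t, 0] : Fin 3 → F) ∈ I) → I = ⊤ := by
      intro h
      have h0 : ∀ t : F, (![t, 0, 0] : Fin 3 → F) ∈ I := by
        intro t
        have := (hI _ (h t) ![1, 0, 0]).2
        rw [M_apply] at this
        simpa using this
      have h2 : ∀ t : F, (![0, 0, t] : Fin 3 → F) ∈ I := by
        intro t
        have := (hI _ (h0 t) ![1, 0, 0]).1
        rw [M_apply] at this
        simpa using this
      rw [eq_top_iff]
      intro x _
      have hx : x = ![x 0, 0, 0] + ![0, x 1, 0] + ![0, 0, x 2] := by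
        ext i
        fin_cases i <;> simp
      rw [hx]
      exact I.add_mem (I.add_mem (h0 _) (h _)) (h2 _)
    have keyA : (∃ x ∈ I, x 0 ≠ 0) → I = ⊤ := by
      rintro ⟨x, hx, hx0⟩
      apply key
      intro t
      have := (hI _ hx ![0, 0, (x 0)⁻¹ * t]).1
      rw [M_apply] at this
      simpa [mul_inv_cancel_left₀ hx0] using this
    have keyB : (∃ x ∈ I, x 1 ≠ 0) → I = ⊤ := by
      rintro ⟨x, hx, hx1⟩
      apply keyA
      refine ⟨_, (hI _ hx ![1, 0, 0]).2, ?_⟩
      rw [M_apply]
      simpa using hx1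
    obtain ⟨x, hx, hne⟩ : ∃ x ∈ I, x ≠ 0 := by
      by_contra hc
      push Not at hc
      apply hbot
      rw [eq_bot_iff]
      intro x hx
      rw [hc x hx]
      exact AddSubgroup.zero_mem _
    by_cases h0 : x 0 = 0
    · by_cases h1 : x 1 = 0
      · have h2 : x 2 ≠ 0 := by
          intro h2
          apply hne
          ext i
          fin_cases i
          · exact h0
          · exact h1
          · exact h2
        apply keyB
        refine ⟨_, (hI _ hx ![1, 0, 0]).1, ?_⟩
        rw [M_apply]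
        simpa [h0, h1] using h2
      · exact keyB ⟨x, hx, h1⟩
    · exact keyA ⟨x, hx, h0⟩

/-- Over every field `F` of characteristic `2` there is a three-dimensional simple right alternative
algebra that is not alternative and whose commutator algebra is a Malcev (even a Lie) algebra. -/
theorem result (F : Type*) [Field F] [CharP F 2] :
    ∃ μ : (Fin 3 → F) →ₗ[F] (Fin 3 → F) →ₗ[F] (Fin 3 → F),
      IsSimpleAlg μ ∧ IsRightAlternative μ ∧ ¬ IsAlternative μ ∧ IsMalcevAdmissible μ ∧
        IsLieAdmissible μ := by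
  have h2 : (2 : F) = 0 := CharTwo.two_eq_zero
  refine ⟨M F, simple F, ?_, ?_, ⟨?_, ?_⟩, ⟨?_, ?_⟩⟩
  · intro x y
    simp only [M_apply]
    ext i
    fin_cases i
    · show x 0 * y 1 * y 1 = x 0 * (y 0 * y 2 + y 1 * y 1 + y 2 * y 0)
      linear_combination (-(x 0 * y 0 * y 2)) * h2
    · show x 0 * y 1 * y 2 + (x 0 * y 2 + x 1 * y 1 + x 2 * y 0) * y 1 + x 0 * y 0 * y 0 =
        x 0 * (y 0 * y 0) + x 1 * (y 0 * y 2 + y 1 * y 1 + y 2 * y 0) + x 2 * (y 0 * y 1)
      linear_combination (x 0 * y 1 * y 2 - x 1 * y 0 * y 2) * h2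
    · show x 0 * y 1 * y 0 = x 0 * (y 0 * y 1)
      ring
  · intro h
    have := congrFun (h.1 ![1, 0, 0] ![0, 1, 0]) 2
    simp [M_apply] at this
  · intro x
    rw [comm_apply]
    ext i
    fin_cases i
    · simp
    · rfl
    · rfl
  · intro x y z
    simp only [comm_apply]
    ext i
    fin_cases i
    · simp; ring
    · simp
    · simp
  · intro x
    rw [comm_apply]
    ext i
    fin_cases i
    · simp
    · rfl
    · rfl
  · intro x y z
    simp only [comm_apply]
    ext i
    fin_cases i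
    · simp; ring
    · simp
    · simp

end Pool.Agent.Results.MP_a52033_al.CharTwo
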